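import Pool.Agent.Q5.SG.Stm2
import Pool.Agent.Q125.AR.Base
import Pool.Agent.Q225.AR.FR

/-! # Project SG (helper5), job IJ: an Artin character comes from an injective character -/

set_option autoImplicit false
set_option linter.unusedSectionVars false

namespace Pool.Agent.Q14.SG

open NumberField IsDedekindDomain Pool.Agent.Q5.BR Pool.Agent.Q92.AR

/-- The Artin character of a character of a quotient of the Galois group. -/
theorem art_quot' {F E M : Type} [Field F] [NumberField F] [Field E] [NumberField E] [Field M]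
    [NumberField M] [Algebra F E] [Algebra F M] [Algebra E M] [IsScalarTower F E M] [IsGalois F M]
    [IsGalois F E] (ψ : (M ≃ₐ[F] M) →* ℂˣ) (ψ' : (E ≃ₐ[F] E) →* ℂˣ)
    (h : ∀ g : M ≃ₐ[F] M, ψ' (AlgEquiv.restrictNormal g E) = ψ g) (N : ℕ) (hR : Ram F M N)
    (D : Dv F) (hD : D ∈ Pr F N) : art ψ' D = art ψ D := by
  rw [Pool.Agent.Q125.AR.art_eq_sum, Pool.Agent.Q125.AR.art_eq_sum]
  refine Finset.sum_congr rfl fun v hv => ?_
  have hN : (N : 𝓞 F) ∉ v.asIdeal := by
    intro h
    exact (Finsupp.mem_support_iff.1 hv) (hD v h)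
  have hu : Unramified M v := by
    by_contra h
    exact hN (hR v h)
  have huE : Unramified E v := hu.sub
  have h2 : IsFrobenius v (AlgEquiv.restrictNormal (frob M v) E) :=
    Pool.Agent.Q225.AR.fr.1 F E M v (frob M v) (frob_spec v)
  have h3 := Pool.Agent.Q125.AR.chi_frob huE (frob_spec (M := E) v) h2 ψ'
  rw [h3, h]

theorem ij : Pool.Agent.Q5.SG.S_IJ := by
  classical
  intro K M _ _ _ _ _ _ ψ N hN hR
  let H : Subgroup (M ≃ₐ[K] M) := ψ.ker
  let E : IntermediateField K M := IntermediateField.fixedField H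
  have hfix : E.fixingSubgroup = H := IntermediateField.fixingSubgroup_fixedField H
  have hGal : IsGalois K E := IsGalois.of_fixedField_normal_subgroup H
  let res : (M ≃ₐ[K] M) →* (E ≃ₐ[K] E) := AlgEquiv.restrictNormalHom E
  have hres : Function.Surjective res := AlgEquiv.restrictNormalHom_surjective M
  have hker : res.ker = ψ.ker := by
    change res.ker = H
    rw [← hfix]
    exact IntermediateField.restrictNormalHom_ker E
  have hle : res.ker ≤ ψ.ker := hker.le
  let ψ' : (E ≃ₐ[K] E) →* ℂˣ := (MonoidHom.liftOfSurjective res hres) ⟨ψ, hle⟩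
  have hψ' : ∀ g, ψ' (res g) = ψ g := fun g =>
    MonoidHom.liftOfRightInverse_comp_apply res _ _ ⟨ψ, hle⟩ g
  refine ⟨E, inferInstance, inferInstance, inferInstance, hGal, ψ', ?_, ?_, ?_⟩
  · rw [injective_iff_map_eq_one]
    intro x hx
    obtain ⟨g, rfl⟩ := hres x
    rw [hψ'] at hx
    have h1 : g ∈ res.ker := by
      rw [hker]
      exact hx
    exact h1
  · intro v hv
    exact hR v fun h => hv h.sub
  · intro D hD
    exact art_quot' ψ ψ' hψ' N hR D hD

end Pool.Agent.Q14.SG
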